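import Pool.Agent.H11.LGR.Targets

/-! MNR: the minors -/

set_option autoImplicit false

open MvPolynomial Pool.Agent.H87.CLG Pool.Agent.H11.LGR

namespace Pool.Agent.H41.LGR

/-- expansion of the bordered minor along the last row -/
theorem mn_snoc {R : Type} [CommRing R] {s n : ℕ} (k : Fin s → Fin n → R) (v : Fin n → R)
    (I : Fin s → Fin n) : ∃ c : Fin s → R, ∀ i : Fin n,
    mn (Fin.snoc k v : Fin (s + 1) → Fin n → R) (Fin.snoc I i : Fin (s + 1) → Fin n) =
      v i * mn k I + ∑ j, k j i * c j := by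
  classical
  refine ⟨fun j => (-1) ^ (s + (j : ℕ)) * Matrix.det (Matrix.of fun (a b : Fin s) =>
    (Fin.snoc k v : Fin (s + 1) → Fin n → R) ((Fin.castSucc j).succAbove b) (I a)), ?_⟩
  intro i
  have h := Matrix.det_succ_row (Matrix.of fun (a b : Fin (s + 1)) =>
    (Fin.snoc k v : Fin (s + 1) → Fin n → R) b
      ((Fin.snoc I i : Fin (s + 1) → Fin n) a)) (Fin.last s)
  unfold mn
  rw [h, Fin.sum_univ_castSucc, add_comm]
  congr 1
  · have h1 : (Matrix.of fun (a b : Fin (s + 1)) =>
        (Fin.snoc k v : Fin (s + 1) → Fin n → R) b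
          ((Fin.snoc I i : Fin (s + 1) → Fin n) a)).submatrix (Fin.last s).succAbove
          (Fin.last s).succAbove = Matrix.of fun a b => k b (I a) := by
      ext a b
      simp [Matrix.submatrix, Fin.succAbove_last]
    rw [h1]
    have h2 : (-1 : R) ^ ((Fin.last s : ℕ) + (Fin.last s : ℕ)) = 1 := by
      rw [← two_mul, pow_mul]
      simp
    rw [h2, one_mul]
    simp [Fin.snoc_last]
  · refine Finset.sum_congr rfl fun j _ => ?_
    have h1 : (Matrix.of fun (a b : Fin (s + 1)) =>
        (Fin.snoc k v : Fin (s + 1) → Fin n → R) b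
          ((Fin.snoc I i : Fin (s + 1) → Fin n) a)).submatrix (Fin.last s).succAbove
          (Fin.castSucc j).succAbove = Matrix.of fun (a b : Fin s) =>
        (Fin.snoc k v : Fin (s + 1) → Fin n → R) ((Fin.castSucc j).succAbove b) (I a) := by
      ext a b
      simp [Matrix.submatrix, Fin.succAbove_last]
    rw [h1]
    have h2 : ((Matrix.of fun (a b : Fin (s + 1)) =>
        (Fin.snoc k v : Fin (s + 1) → Fin n → R) b
          ((Fin.snoc I i : Fin (s + 1) → Fin n) a)) (Fin.last s) (Fin.castSucc j)) = k j i := by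
      simp [Fin.snoc_last, Fin.snoc_castSucc]
    rw [h2]
    simp only [Fin.val_last, Fin.val_castSucc]
    ring

theorem pf_MNR : T_MNR := by
  intro R M _ _ _ n s g L k v I hk hm
  obtain ⟨c, hc⟩ := mn_snoc k v I
  have h1 : mn k I • ∑ i, v i • g i =
      (∑ i, mn (Fin.snoc k v : Fin (s + 1) → Fin n → R)
        (Fin.snoc I i : Fin (s + 1) → Fin n) • g i) - ∑ j, c j • ∑ i, k j i • g i := by
    rw [Finset.smul_sum]
    simp only [Finset.smul_sum, smul_smul]
    rw [Finset.sum_comm, ← Finset.sum_sub_distrib]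
    refine Finset.sum_congr rfl fun i _ => ?_
    rw [hc i, ← Finset.sum_smul, ← sub_smul]
    congr 1
    have : ∑ j, c j * k j i = ∑ j, k j i * c j :=
      Finset.sum_congr rfl fun j _ => mul_comm _ _
    rw [this]
    ring
  rw [h1]
  refine L.sub_mem (L.sum_mem fun i _ => hm i (g i)) (L.sum_mem fun j _ => L.smul_mem _ (hk j))

end Pool.Agent.H41.LGR
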