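import Pool.Agent.H11.LGR.Targets

/-! SIM: the generators in an irreducible representation -/

set_option autoImplicit false

open MvPolynomial Pool.Agent.H87.CLG Pool.Agent.H11.LGR

namespace Pool.Agent.H41.LGR

theorem pf_SIM (hSPN : T_SPN) (hSPA : T_SPA) (hTRF : T_TRF) (hNDG : T_NDG) : T_SIM := by
  classical
  intro n m hm
  refine ⟨((m + 1) ^ n) ^ (n ^ 2) + 1, ?_⟩
  intro F W Γ _ _ _ _ _ _ X ρ hX hn hirr hl
  rcases subsingleton_or_nontrivial W with hW | hW
  · have hE : Subsingleton (Module.End F W) :=
      ⟨fun f g => LinearMap.ext fun x => Subsingleton.elim _ _⟩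
    have hfin : (ρ '' X).Finite := Set.Subsingleton.finite fun a _ b _ => Subsingleton.elim a b
    refine ⟨hfin, ?_⟩
    have h1 : (ρ '' X).ncard ≤ 1 :=
      (Set.ncard_le_one hfin).2 fun a _ b _ => Subsingleton.elim a b
    omega
  · obtain ⟨T, hT, hT2⟩ := hTRF F m n hm
    set S : Set (Module.End F W) :=
      {a | ∃ l : List Γ, (∀ x ∈ l, x ∈ X) ∧ l.length = n ^ 2 ∧ ρ l.prod = a} with hS
    have hfr : Module.finrank F (Module.End F W) ≤ n ^ 2 := by
      have h1 : Module.finrank F (Module.End F W) =
          Module.finrank F W * Module.finrank F W := Module.finrank_linearMap F F W W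
      rw [h1, pow_two]
      exact Nat.mul_le_mul hn hn
    have hspan : ⊤ ≤ Submodule.span F S := by
      intro f _
      have h1 := hSPA F W Γ ρ hW hirr f
      refine (Submodule.span_le (p := Submodule.span F S)).2 ?_ h1
      rintro _ ⟨g, rfl⟩
      exact hSPN F (Module.End F W) Γ X ρ hX (n ^ 2) hfr g
    let B := Module.Basis.ofSpan hspan
    have hBS : Set.range B ⊆ S := Module.Basis.ofSpan_subset hspan
    haveI := Module.Finite.finite_basis B
    haveI := Fintype.ofFinite (↑((linearIndepOn_empty F id).extend (Set.empty_subset S)) : Type)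
    have hcard : Fintype.card (↑((linearIndepOn_empty F id).extend (Set.empty_subset S)) : Type) ≤
        n ^ 2 := by
      rw [← Module.finrank_eq_card_basis B]
      exact hfr
    let Φ : Module.End F W → (↑((linearIndepOn_empty F id).extend (Set.empty_subset S)) → F) :=
      fun a i => LinearMap.trace F W (a * B i)
    have hinj : Set.InjOn Φ (ρ '' X) := by
      intro a _ a' _ haa
      have h1 : a - a' = 0 := by
        refine hNDG F W (a - a') fun g => ?_
        have h2 : ∀ i, LinearMap.trace F W ((a - a') * B i) = 0 := by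
          intro i
          have h3 := congrFun haa i
          simp only [Φ] at h3
          rw [sub_mul, map_sub, h3, sub_self]
        have h4 : (LinearMap.trace F W ∘ₗ LinearMap.mulLeft F (a - a')) = 0 := by
          refine B.ext fun i => ?_
          simpa using h2 i
        simpa using LinearMap.congr_fun h4 g
      exact sub_eq_zero.1 h1
    have hmaps : Φ '' (ρ '' X) ⊆ ((Fintype.piFinset fun _ => T : Finset
        (↑((linearIndepOn_empty F id).extend (Set.empty_subset S)) → F)) : Set _) := by
      rintro _ ⟨_, ⟨x, hx, rfl⟩, rfl⟩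
      rw [Finset.mem_coe, Fintype.mem_piFinset]
      intro i
      obtain ⟨l, hl1, hl2, hl3⟩ := hBS ⟨i, rfl⟩
      have h1 : ρ x * B i = ρ (x :: l).prod := by
        rw [List.prod_cons, map_mul, hl3]
      simp only [Φ]
      rw [h1]
      refine hT2 W _ hn (hl (x :: l) ?_ ?_)
      · intro y hy
        rcases List.mem_cons.1 hy with rfl | hy
        · exact hx
        · exact hl1 y hy
      · rw [List.length_cons, hl2]
    have hfin2 : (Φ '' (ρ '' X)).Finite := (Finset.finite_toSet _).subset hmaps
    have hfin : (ρ '' X).Finite := Set.Finite.of_finite_image hfin2 hinj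
    refine ⟨hfin, ?_⟩
    have h1 : (ρ '' X).ncard = (Φ '' (ρ '' X)).ncard := (Set.ncard_image_of_injOn hinj).symm
    have h2 : (Φ '' (ρ '' X)).ncard ≤ (Fintype.piFinset fun _ => T : Finset
        (↑((linearIndepOn_empty F id).extend (Set.empty_subset S)) → F)).card := by
      rw [← Set.ncard_coe_finset]
      exact Set.ncard_le_ncard hmaps (Finset.finite_toSet _)
    rw [h1]
    refine h2.trans ?_
    rw [Fintype.card_piFinset, Finset.prod_const, Finset.card_univ]
    have h3 : T.card ^ Fintype.card
        (↑((linearIndepOn_empty F id).extend (Set.empty_subset S)) : Type) ≤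
        ((m + 1) ^ n) ^ Fintype.card
        (↑((linearIndepOn_empty F id).extend (Set.empty_subset S)) : Type) :=
      Nat.pow_le_pow_left hT _
    have h4 : ((m + 1) ^ n) ^ Fintype.card
        (↑((linearIndepOn_empty F id).extend (Set.empty_subset S)) : Type) ≤
        ((m + 1) ^ n) ^ (n ^ 2) := Nat.pow_le_pow_right (by positivity) hcard
    omega

end Pool.Agent.H41.LGR
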